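import Pool.Agent.Helper5.WD.Stmts

/-!
# WD, row GPTW: pointwise bounds for the couplings
-/

set_option autoImplicit false

open Finset Pool.Agent.Helper8.UN Pool.Agent.Helper5.FV

namespace Pool.Agent.Helper5.WD

theorem gptw_mem_fib {n : ℕ} (S : Finset (Fin n → ℕ)) (f : Fin n → ℕ) (y : Fin n) (i : ℕ) :
    i ∈ fib S f y ↔ Function.update f y i ∈ S := by
  classical
  unfold fib
  simp only [Finset.mem_image, Finset.mem_filter]
  constructor
  · rintro ⟨f', ⟨h1, h2⟩, h3⟩
    have h4 : Function.update f y i = f' := by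
      funext z
      by_cases hz : z = y
      · rw [hz, Function.update_self, h3]
      · rw [Function.update_of_ne hz, h2 z hz]
    rw [h4]
    exact h1
  · intro h
    refine ⟨Function.update f y i, ⟨h, ?_⟩, Function.update_self _ _ _⟩
    intro z hz
    exact Function.update_of_ne hz _ _

open scoped Classical in
/-- free colours -/
noncomputable def gptw_A {n : ℕ} (E : Finset (Finset (Fin n))) (W : Finset (Fin n)) (k : ℕ)
    (f : Fin n → ℕ) (y : Fin n) : Finset ℕ := (Finset.Icc 1 k).filter (fun i => ¬ Blk E W f y i)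

theorem gptw_tv_le_one (A B : Finset ℕ) : tv A B ≤ 1 := by
  unfold tv
  have : 0 ≤ ((A ∩ B).card : ℝ) / ((max A.card B.card : ℕ) : ℝ) := by positivity
  linarith

theorem gptw_tv (A B : Finset ℕ) (N c : ℝ) (hc : 0 < c) (hB : c ≤ B.card)
    (h1 : ((A \ B).card : ℝ) ≤ N) (h2 : ((B \ A).card : ℝ) ≤ N) : tv A B ≤ N / c := by
  have hN : 0 ≤ N := le_trans (Nat.cast_nonneg _) h1
  set M : ℕ := max A.card B.card with hM
  have hMB : (B.card : ℝ) ≤ M := by exact_mod_cast le_max_right _ _
  have hMpos : (0 : ℝ) < M := lt_of_lt_of_le hc (le_trans hB hMB)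
  have h3 : (M : ℝ) - (A ∩ B).card ≤ N := by
    have hA : (A ∩ B).card + (A \ B).card = A.card := Finset.card_inter_add_card_sdiff A B
    have hB' : (A ∩ B).card + (B \ A).card = B.card := by
      rw [Finset.inter_comm]
      exact Finset.card_inter_add_card_sdiff B A
    have hA' : ((A ∩ B).card : ℝ) + (A \ B).card = A.card := by exact_mod_cast hA
    have hB'' : ((A ∩ B).card : ℝ) + (B \ A).card = B.card := by exact_mod_cast hB'
    have h4 : (M : ℝ) = A.card ∨ (M : ℝ) = B.card := by
      rcases le_total A.card B.card with h | h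
      · right
        rw [hM, max_eq_right h]
      · left
        rw [hM, max_eq_left h]
    rcases h4 with h4 | h4
    · rw [h4]
      linarith
    · rw [h4]
      linarith
  have h5 : tv A B = ((M : ℝ) - (A ∩ B).card) / M := by
    unfold tv
    rw [sub_div, div_self hMpos.ne']
  rw [h5]
  calc ((M : ℝ) - (A ∩ B).card) / M ≤ N / M := div_le_div_of_nonneg_right h3 hMpos.le
    _ ≤ N / c := div_le_div_of_nonneg_left hN hc (le_trans hB hMB)

/-- blocked for `g` and free for `f` -/
theorem gptw_sub {n : ℕ} (E : Finset (Finset (Fin n))) (W : Finset (Fin n)) (k : ℕ)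
    (f g : Fin n → ℕ) (y : Fin n) (hE : Two E) (S : Finset ℕ)
    (hS : ∀ i ∈ S, i ∈ Finset.Icc 1 k ∧ Blk E W g y i ∧ ¬ Blk E W f y i) :
    S.card ≤ ((nb E W y).filter (fun z => f z ≠ g z)).card + bl3 E W k g y := by
  classical
  have h1 : S ⊆ ((nb E W y).filter (fun z => f z ≠ g z)).image g ∪
      ((Finset.Icc 1 k).filter (fun i => ∃ e ∈ E, e ⊆ W ∧ y ∈ e ∧ 3 ≤ e.card ∧
        ∀ u ∈ e, u ≠ y → g u = i)) := by
    intro i hi
    obtain ⟨hik, ⟨e, heE, heW, hye, heg⟩, hfi⟩ := hS i hi
    rw [Finset.mem_union]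
    by_cases h3 : 3 ≤ e.card
    · right
      rw [Finset.mem_filter]
      exact ⟨hik, e, heE, heW, hye, h3, heg⟩
    · left
      have h2 : e.card = 2 := by
        have := hE e heE
        omega
      have h4 : ∃ z ∈ e, z ≠ y := by
        by_contra hcon
        push Not at hcon
        have h5 : e ⊆ {y} := by
          intro u hu
          rw [Finset.mem_singleton]
          exact hcon u hu
        have h6 := Finset.card_le_card h5
        rw [Finset.card_singleton] at h6
        omega
      obtain ⟨z, hz, hzy⟩ := h4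
      have h5 : ({y, z} : Finset (Fin n)) = e := by
        apply Finset.eq_of_subset_of_card_le
        · intro u hu
          rw [Finset.mem_insert, Finset.mem_singleton] at hu
          rcases hu with hu | hu
          · rw [hu]
            exact hye
          · rw [hu]
            exact hz
        · rw [h2, Finset.card_pair (Ne.symm hzy)]
      rw [Finset.mem_image]
      refine ⟨z, ?_, heg z hz hzy⟩
      rw [Finset.mem_filter]
      constructor
      · unfold nb
        rw [Finset.mem_filter]
        refine ⟨heW hz, hzy, ?_⟩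
        rw [h5]
        exact heE
      · intro hfg
        apply hfi
        refine ⟨e, heE, heW, hye, ?_⟩
        intro u hu huy
        rw [← h5, Finset.mem_insert, Finset.mem_singleton] at hu
        rcases hu with hu | hu
        · exact absurd hu huy
        · rw [hu, hfg]
          exact heg z hz hzy
  calc S.card ≤ _ := Finset.card_le_card h1
    _ ≤ _ := Finset.card_union_le _ _
    _ ≤ _ := by
        apply Nat.add_le_add
        · refine le_trans Finset.card_image_le (le_of_eq ?_)
          congr 1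
        · unfold bl3
          apply le_of_eq
          congr 1

theorem gptw_tv2 (A B : Finset ℕ) (N c b D : ℝ) (hc : 0 < c) (hD : 0 ≤ D)
    (hB : 2 * c + D - b ≤ B.card) (hbN : b ≤ N)
    (h1 : ((A \ B).card : ℝ) ≤ N) (h2 : ((B \ A).card : ℝ) ≤ N) : tv A B ≤ N / c := by
  by_cases hb : b ≤ c
  · exact gptw_tv A B N c hc (by linarith) h1 h2
  · have h3 := gptw_tv_le_one A B
    have h4 : 1 ≤ N / c := by
      rw [le_div_iff₀ hc]
      linarith [not_le.1 hb]
    linarith

theorem gptw_cardB {n D0 k : ℕ} (E : Finset (Finset (Fin n))) (W : Finset (Fin n))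
    (g : Fin n → ℕ) (y : Fin n) (hE : Two E) (hNB : NB E D0) :
    (k : ℝ) - D0 - bl3 E W k g y ≤ (gptw_A E W k g y).card := by
  classical
  have h1 : ((Finset.Icc 1 k).filter (fun i => Blk E W g y i)).card +
      ((Finset.Icc 1 k).filter (fun i => ¬ Blk E W g y i)).card = k := by
    rw [Finset.card_filter_add_card_filter_not]
    simp
  have h2 := gptw_sub E W k (fun _ => 0) g y hE
    ((Finset.Icc 1 k).filter (fun i => Blk E W g y i)) (by
      intro i hi
      rw [Finset.mem_filter] at hi
      refine ⟨hi.1, hi.2, ?_⟩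
      rintro ⟨e, heE, heW, hye, he⟩
      have h3 : 1 < e.card := by
        have := hE e heE
        omega
      obtain ⟨z, hz, hzy⟩ := Finset.exists_mem_ne h3 y
      have h4 := he z hz hzy
      have h5 := (Finset.mem_Icc.1 hi.1).1
      simp only at h4
      omega)
  have h3 : ((nb E W y).filter (fun z => (fun _ => 0 : Fin n → ℕ) z ≠ g z)).card ≤ D0 :=
    le_trans (Finset.card_filter_le _ _) (hNB W y)
  have h4 : ((Finset.Icc 1 k).filter (fun i => Blk E W g y i)).card ≤ D0 + bl3 E W k g y :=
    le_trans h2 (Nat.add_le_add_right h3 _)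
  have h5 : k ≤ D0 + bl3 E W k g y +
      ((Finset.Icc 1 k).filter (fun i => ¬ Blk E W g y i)).card := by omega
  unfold gptw_A
  have h6 : (k : ℝ) ≤ D0 + bl3 E W k g y +
      (((Finset.Icc 1 k).filter (fun i => ¬ Blk E W g y i)).card : ℝ) := by
    exact_mod_cast h5
  linarith

theorem gptw_main {n D0 k k' : ℕ} (E : Finset (Finset (Fin n))) (W : Finset (Fin n))
    (f g : Fin n → ℕ) (y : Fin n) (hE : Two E) (hNB : NB E D0) (hD : 2 * D0 < k)
    (hk : k' ≤ k) :
    tv (gptw_A E W k' f y) (gptw_A E W k g y) ≤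
      (((k : ℝ) - k') + ((nb E W y).filter (fun z => f z ≠ g z)).card + bl3 E W k' f y +
        bl3 E W k g y) / (((k : ℝ) - 2 * D0) / 2) := by
  classical
  have hc : (0 : ℝ) < ((k : ℝ) - 2 * D0) / 2 := by
    have : (2 * D0 : ℝ) < k := by exact_mod_cast hD
    linarith
  have hkk : (k' : ℝ) ≤ k := by exact_mod_cast hk
  have h0 : (0 : ℝ) ≤ bl3 E W k' f y := Nat.cast_nonneg _
  have h0' : (0 : ℝ) ≤ bl3 E W k g y := Nat.cast_nonneg _
  have h0'' : (0 : ℝ) ≤ ((nb E W y).filter (fun z => f z ≠ g z)).card := Nat.cast_nonneg _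
  apply gptw_tv2 _ _ _ _ (bl3 E W k g y : ℝ) (D0 : ℝ) hc (Nat.cast_nonneg _)
  · have h1 := gptw_cardB (k := k) E W g y hE hNB
    linarith
  · linarith
  · have h1 := gptw_sub E W k f g y hE (gptw_A E W k' f y \ gptw_A E W k g y) (by
      intro i hi
      unfold gptw_A at hi
      rw [Finset.mem_sdiff, Finset.mem_filter, Finset.mem_filter, Finset.mem_Icc,
        Finset.mem_Icc] at hi
      obtain ⟨⟨h2, h3⟩, h4⟩ := hi
      have h5 : 1 ≤ i ∧ i ≤ k := ⟨h2.1, by omega⟩
      refine ⟨Finset.mem_Icc.mpr h5, ?_, h3⟩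
      by_contra h6
      exact h4 ⟨h5, h6⟩)
    have h2 : ((gptw_A E W k' f y \ gptw_A E W k g y).card : ℝ) ≤
        ((nb E W y).filter (fun z => f z ≠ g z)).card + bl3 E W k g y := by
      exact_mod_cast h1
    linarith
  · have h1 := gptw_sub E W k' g f y hE
      ((gptw_A E W k g y \ gptw_A E W k' f y).filter (fun i => i ≤ k')) (by
      intro i hi
      unfold gptw_A at hi
      rw [Finset.mem_filter, Finset.mem_sdiff, Finset.mem_filter, Finset.mem_filter,
        Finset.mem_Icc, Finset.mem_Icc] at hi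
      obtain ⟨⟨⟨h2, h3⟩, h4⟩, h5⟩ := hi
      have h6 : 1 ≤ i ∧ i ≤ k' := ⟨h2.1, h5⟩
      refine ⟨Finset.mem_Icc.mpr h6, ?_, h3⟩
      by_contra h7
      exact h4 ⟨h6, h7⟩)
    have h2 : ((gptw_A E W k g y \ gptw_A E W k' f y).filter (fun i => ¬ i ≤ k')).card ≤ k - k' := by
      have h3 : (gptw_A E W k g y \ gptw_A E W k' f y).filter (fun i => ¬ i ≤ k') ⊆
          Finset.Ioc k' k := by
        intro i hi
        unfold gptw_A at hi
        rw [Finset.mem_filter, Finset.mem_sdiff, Finset.mem_filter, Finset.mem_Icc] at hi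
        rw [Finset.mem_Ioc]
        exact ⟨by omega, hi.1.1.1.2⟩
      have h4 := Finset.card_le_card h3
      rw [Nat.card_Ioc] at h4
      exact h4
    have h3 : (nb E W y).filter (fun z => g z ≠ f z) = (nb E W y).filter (fun z => f z ≠ g z) := by
      apply Finset.filter_congr
      intro z _
      exact ne_comm
    rw [h3] at h1
    have h4 : (gptw_A E W k g y \ gptw_A E W k' f y).card =
        ((gptw_A E W k g y \ gptw_A E W k' f y).filter (fun i => i ≤ k')).card +
        ((gptw_A E W k g y \ gptw_A E W k' f y).filter (fun i => ¬ i ≤ k')).card :=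
      (Finset.card_filter_add_card_filter_not _).symm
    have h5 : (gptw_A E W k g y \ gptw_A E W k' f y).card ≤
        ((nb E W y).filter (fun z => f z ≠ g z)).card + bl3 E W k' f y + (k - k') := by omega
    have h6 : ((gptw_A E W k g y \ gptw_A E W k' f y).card : ℝ) ≤
        ((nb E W y).filter (fun z => f z ≠ g z)).card + bl3 E W k' f y + ((k : ℝ) - k') := by
      rw [← Nat.cast_sub hk]
      exact_mod_cast h5
    linarith

theorem st_GPTW (hUPC : ST_UPC) (hUPS : ST_UPS) : ST_GPTW := by
  classical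
  intro n D0 k E W y g hE hNB hD hy hg
  have hfibC : ∀ (k' : ℕ) (f : Fin n → ℕ), f ∈ CC E W k' → fib (CC E W k') f y =
      gptw_A E W k' f y := by
    intro k' f hf
    ext i
    rw [gptw_mem_fib, ((hUPC n k' E W f y i hE hy).1 (Or.inl hf))]
    unfold gptw_A
    rw [Finset.mem_filter]
  constructor
  · intro k' f hk hf
    rw [hfibC k' f hf, hfibC k g hg]
    have hk' : k' ≤ k := by omega
    exact gptw_main E W f g y hE hNB hD hk'
  · intro f hf
    have hc : (0 : ℝ) < ((k : ℝ) - 2 * D0) / 2 := by
      have : (2 * D0 : ℝ) < k := by exact_mod_cast hD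
      linarith
    by_cases hz : ∃ z ∈ W, z ≠ y ∧ f z = f y
    · rw [if_pos hz, hfibC k g hg]
      have hfibS : fib (SS E W k) f y = gptw_A E W k f y := by
        ext i
        rw [gptw_mem_fib, (((hUPS n k E W f y i hE hy).1 hf hz).1)]
        unfold gptw_A
        rw [Finset.mem_filter]
      rw [hfibS]
      have h1 := gptw_main E W f g y hE hNB hD (le_refl k)
      rw [sub_self, zero_add] at h1
      rw [zero_add]
      exact h1
    · rw [if_neg hz]
      have h1 := gptw_tv_le_one (fib (SS E W k) f y) (fib (CC E W k) g y)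
      have h2 : 0 ≤ (((nb E W y).filter (fun z => f z ≠ g z)).card + (bl3 E W k f y : ℝ) +
          bl3 E W k g y) / (((k : ℝ) - 2 * D0) / 2) := by positivity
      linarith

end Pool.Agent.Helper5.WD
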